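import Mathlib

namespace Pool.Agent.Results.MP_c360fa_mp.FiniteH
open MvPolynomial Finset

/-- `A = ℝ[u₀, u₁, …]` -/
abbrev A := MvPolynomial ℕ ℝ

/-- the derivation with `d uᵢ = uᵢ₊₁` -/
noncomputable def d : Derivation ℝ A A := mkDerivation ℝ fun i => X (i + 1)

/-- `f * g = ∑ᵢ (fᵢ dⁱ g + (-d)ⁱ (f gᵢ))` -/
noncomputable def star (f g : A) : A :=
  ∑ᶠ i : ℕ, (pderiv i f * d^[i] g + (-1) ^ i * d^[i] (f * pderiv i g))

noncomputable def S : Derivation ℝ A A := mkDerivation ℝ fun i => X (i + 3)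
noncomputable def U : Derivation ℝ A A := mkDerivation ℝ fun i => d^[i] (X 1 ^ 4)
noncomputable def V (a : ℝ) : Derivation ℝ A A := mkDerivation ℝ fun i => C (a ^ i)

@[simp] lemma dX (i : ℕ) : d (X i) = X (i + 1) := mkDerivation_X _ _ _
@[simp] lemma SX (i : ℕ) : S (X i) = X (i + 3) := mkDerivation_X _ _ _
@[simp] lemma UX (i : ℕ) : U (X i) = d^[i] (X 1 ^ 4) := mkDerivation_X _ _ _
@[simp] lemma VX (a : ℝ) (i : ℕ) : V a (X i) = C (a ^ i) := mkDerivation_X _ _ _

lemma comm {D E F : Derivation ℝ A A} {p : A}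
    (h : ∀ i ∈ p.vars, D (E (X i)) = E (D (X i)) + F (X i)) : D (E p) = E (D p) + F p := by
  have : ⁅D, E⁆ p = F p := derivation_eq_of_forall_mem_vars fun i hi => by
    rw [Derivation.commutator_apply, h i hi]; ring
  rw [← this, Derivation.commutator_apply]; ring

lemma nv {i : ℕ} {p : A} (h : pderiv i p = 0) : i ∉ p.vars := by
  intro hi
  obtain ⟨m, hm, him⟩ := (mem_vars_iff_mem_support i).1 hi
  have := coeff_pderiv (i := i) p (m - Finsupp.single i 1)
  rw [h, tsub_add_cancel_of_le (by simpa [Nat.one_le_iff_ne_zero] using him)] at this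
  exact mul_ne_zero (mem_support_iff.1 hm) (by positivity) this.symm

lemma expand (D : Derivation ℝ A A) {p : A} {N : ℕ} (h : ∀ i ∈ p.vars, i < N) :
    D p = ∑ i ∈ range N, pderiv i p * D (X i) := by
  have e : ∀ q, (∑ i ∈ range N, D (X i) • pderiv (R := ℝ) i) q =
      ∑ i ∈ range N, pderiv i q * D (X i) := fun q => by
    induction range N using Finset.induction_on with
    | empty => simp
    | insert a s ha ih => rw [sum_insert ha, sum_insert ha, ← ih]; simp [mul_comm]
  rw [← e]
  refine derivation_eq_of_forall_mem_vars fun i hi => ?_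
  rw [e, sum_eq_single_of_mem i (mem_range.2 (h i hi)) fun j _ hj => by
    rw [pderiv_X_of_ne hj.symm, zero_mul], pderiv_X_self, one_mul]

lemma bd (p : A) : ∃ N, ∀ i ∈ p.vars, i < N :=
  ⟨p.vars.sup id + 1, fun _ hi => Nat.lt_succ_of_le (le_sup (f := id) hi)⟩

lemma dit (i j : ℕ) (q : A) : d^[i] (X j + q) = X (i + j) + d^[i] q := by
  induction i with
  | zero => simp
  | succ i ih => rw [Function.iterate_succ_apply', Function.iterate_succ_apply', ih, map_add, dX,
      Nat.add_right_comm]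

lemma star_eq (h : A) : star h (X 3 + X 1 ^ 4) =
    S h + U h - d (d (d h)) - d (h * (C 4 * X 1 ^ 3)) := by
  obtain ⟨N, hN⟩ := bd h
  have z : ∀ i, i ≠ 1 → i ≠ 3 → (-1) ^ i * d^[i] (h * pderiv i (X 3 + X 1 ^ 4 : A)) = 0 :=
    fun i h1 h3 => by
      simp [Derivation.leibniz_pow, pderiv_X_of_ne h1.symm, pderiv_X_of_ne h3.symm,
        Function.iterate_fixed (map_zero d)]
  rw [star, finsum_eq_sum_of_support_subset (s := range (N + 4)), sum_add_distrib,
    expand S (N := N + 4) fun i hi => (hN i hi).trans (by omega),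
    expand U (N := N + 4) fun i hi => (hN i hi).trans (by omega),
    sum_eq_add_of_mem 1 3 (by simp) (by simp) (by decide) fun i _ hi => z i hi.1 hi.2]
  · simp only [dit, SX, UX, mul_add, sum_add_distrib]
    have e1 : pderiv 1 (X 3 + X 1 ^ 4 : A) = C 4 * X 1 ^ 3 := by
      simp [Derivation.leibniz_pow, pderiv_X_of_ne, map_ofNat]
    have e3 : pderiv 3 (X 3 + X 1 ^ 4 : A) = 1 := by
      simp [Derivation.leibniz_pow, pderiv_X_of_ne]
    rw [e1, e3]
    simp only [Function.iterate_succ_apply', Function.iterate_zero, id, mul_one]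
    ring
  · intro i hi
    by_contra hc
    have : N + 4 ≤ i := by simpa using hc
    exact hi (by
      simp only
      rw [z i (by omega) (by omega),
        pderiv_eq_zero_of_notMem_vars fun h => (hN i h).not_ge (by omega)]
      simp)

lemma pd (j : ℕ) (p : A) : pderiv (j + 1) (d p) = d (pderiv (j + 1) p) + pderiv j p :=
  comm fun i _ => by
    by_cases h : i = j <;> by_cases h' : i = j + 1 <;> simp [pderiv_X, Pi.single_apply, h, h']

lemma pS (j : ℕ) (p : A) : pderiv (j + 3) (S p) = S (pderiv (j + 3) p) + pderiv j p :=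
  comm fun i _ => by
    by_cases h : i = j <;> by_cases h' : i = j + 3 <;> simp [pderiv_X, Pi.single_apply, h, h']

lemma ord (i : ℕ) : ∀ j, i + 1 < j → pderiv j (d^[i] (X 1 ^ 4 : A)) = 0 := by
  induction i with
  | zero => intro j hj; simp [Derivation.leibniz_pow, pderiv_X_of_ne hj.ne]
  | succ i ih =>
    rintro (_ | j) hj
    · omega
    · rw [Function.iterate_succ_apply', pd, ih _ (by omega), ih _ (by omega)]; simp

lemma pU {n : ℕ} {h : A} (hv : ∀ i ∈ h.vars, i ≤ n) : pderiv (n + 2) (U h) = 0 := by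
  rw [comm (F := 0) fun i hi => ?_, pderiv_eq_zero_of_notMem_vars fun h => by
    have := hv _ h; omega]
  · simp
  · have := hv i hi
    rw [UX, ord _ _ (by omega), pderiv_X_of_ne (by omega)]; simp

lemma key1 {n : ℕ} {h : A} (hv : ∀ i ∈ h.vars, i ≤ n + 1) (hs : star h (X 3 + X 1 ^ 4) = 0) :
    d (pderiv (n + 1) h) = 0 := by
  have a2 : pderiv (n + 2) h = 0 := pderiv_eq_zero_of_notMem_vars fun h => by have := hv _ h; omega
  have a3 : pderiv (n + 3) h = 0 := pderiv_eq_zero_of_notMem_vars fun h => by have := hv _ h; omega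
  have b : ∀ j, 1 < j → pderiv j h = 0 → pderiv j (h * (C 4 * X 1 ^ 3)) = 0 := fun j hj e => by
    simp [Derivation.leibniz_pow, e, pderiv_X_of_ne hj.ne]
  have := congrArg (pderiv (n + 3)) hs
  rw [star_eq, map_sub, map_sub, map_add, pS, pU hv] at this
  simp only [pd, a2, a3, b _ (show 1 < n + 3 by omega) a3, b _ (show 1 < n + 2 by omega) a2,
    map_zero, map_add, zero_add, add_zero] at this
  have e : (3 : A) * d (pderiv (n + 1) h) = 0 := by linear_combination -this
  exact (mul_eq_zero.1 e).resolve_left (by norm_num)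

lemma key0 {h : A} (hv : ∀ i ∈ h.vars, i ≤ 0) (hs : star h (X 3 + X 1 ^ 4) = 0) : h = 0 := by
  have a1 : pderiv 1 h = 0 := pderiv_eq_zero_of_notMem_vars fun h => by have := hv _ h; omega
  have a2 : pderiv 2 h = 0 := pderiv_eq_zero_of_notMem_vars fun h => by have := hv _ h; omega
  have c : ∀ p : A, pderiv 1 (pderiv 0 p) = pderiv 0 (pderiv 1 p) + (0 : Derivation ℝ A A) p :=
    fun p => comm fun i _ => by
      by_cases h : i = 0 <;> by_cases h' : i = 1 <;> simp [pderiv_X, Pi.single_apply, h, h']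
  have s : pderiv 2 (S h) = S (pderiv 2 h) + (0 : Derivation ℝ A A) h := comm fun i hi => by
    obtain rfl : i = 0 := Nat.le_zero.1 (hv i hi)
    simp [pderiv_X_of_ne]
  have := congrArg (fun p => pderiv 1 (pderiv 1 (pderiv 2 p))) hs
  simp only [star_eq, map_sub, map_add, s, pU hv, pd 1, pd 0, c, a1, a2, map_zero, zero_add,
    add_zero, Derivation.zero_apply] at this
  have n2 : pderiv 1 (2 : A) = 0 := (pderiv 1).map_natCast 2
  have n3 : pderiv 1 (3 : A) = 0 := (pderiv 1).map_natCast 3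
  simpa [Derivation.leibniz_pow, a1, a2, pderiv_X_of_ne, n2, n3] using this

lemma kerd {p : A} (h : d p = 0) : p = C (constantCoeff p) := by
  obtain ⟨N, hN⟩ := bd p
  have : ∀ k i, N ≤ i + k → pderiv i p = 0 := fun k => by
    induction k with
    | zero => exact fun i hi => pderiv_eq_zero_of_notMem_vars fun h => (hN i h).not_ge hi
    | succ k ih =>
      intro i hi
      have := pd i p
      rwa [h, ih (i + 1) (by omega), map_zero, map_zero, zero_add, eq_comm] at this
  exact vars_eq_empty_iff_eq_C.1 (eq_empty_of_forall_notMem fun i => nv (this N i (by omega)))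

lemma inj {h : A} (hs : star h (X 3 + X 1 ^ 4) = 0) (ha : ∀ i, constantCoeff (pderiv i h) = 0) :
    h = 0 := by
  have : ∀ n, (∀ i ∈ h.vars, i ≤ n) → h = 0 := fun n => by
    induction n with
    | zero => exact fun hv => key0 hv hs
    | succ n ih =>
      refine fun hv => ih fun i hi => Nat.le_of_lt_succ ((hv i hi).lt_of_ne ?_)
      rintro rfl
      exact nv ((kerd (key1 hv hs)).trans (by rw [ha, map_zero])) hi
  obtain ⟨N, hN⟩ := bd h
  exact this N fun i hi => (hN i hi).le

lemma Vd (a : ℝ) (p : A) : V a (d p) = d (V a p) + a • V a p :=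
  comm (F := a • V a) fun i _ => by simp [smul_eq_C_mul, pow_succ']

lemma VS (a : ℝ) (p : A) : V a (S p) = S (V a p) + a ^ 3 • V a p :=
  comm (F := a ^ 3 • V a) fun i _ => by simp [smul_eq_C_mul, pow_add, mul_comm]

lemma e0 {D : Derivation ℝ A A} (h : ∀ i, constantCoeff (D (X i)) = 0) (p : A) :
    constantCoeff (D p) = 0 := by
  obtain ⟨N, hN⟩ := bd p
  simp [expand D hN, h]

lemma ed (p : A) : constantCoeff (d p) = 0 := e0 (by simp) p
lemma eS (p : A) : constantCoeff (S p) = 0 := e0 (by simp) p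

noncomputable def VL (l : List ℝ) (p : A) : A := l.foldr (fun a q => V a q) p

lemma VLd (l : List ℝ) (p : A) : VL l (d p) = d (VL l p) + l.sum • VL l p := by
  induction l with
  | nil => simp [VL]
  | cons a l ih =>
    simp only [VL, List.foldr_cons, List.sum_cons] at ih ⊢
    rw [ih, map_add, Vd, Derivation.map_smul, add_smul, add_assoc]

lemma VLi (l : List ℝ) (p : A) (i : ℕ) :
    constantCoeff (VL l (d^[i] p)) = l.sum ^ i * constantCoeff (VL l p) := by
  induction i with
  | zero => simp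
  | succ i ih => rw [Function.iterate_succ_apply', VLd, map_add, ed, constantCoeff_smul, ih]; simp; ring

lemma Vp (a r : ℝ) (k : ℕ) : V a (C r * X 1 ^ (k + 1)) = C (r * (k + 1) * a) * X 1 ^ k := by
  simp [Derivation.leibniz_pow]; ring

lemma hV {h : A} {N : ℕ} (hN : ∀ i ∈ h.vars, i < N) (a : ℝ) :
    constantCoeff (V a h) = ∑ i ∈ range N, constantCoeff (pderiv i h) * a ^ i := by
  simp [expand (V a) hN]

lemma sym {h : A} (hs : star h (X 3 + X 1 ^ 4) = 0)
    (a b c e : ℝ) (hc : a ^ 3 + b ^ 3 + c ^ 3 + e ^ 3 = (a + b + c + e) ^ 3) :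
    constantCoeff (V (a + b + c + e) h) * (a * b * c * e) = (a + b + c + e) *
      (constantCoeff (V a h) * (b * c * e) + constantCoeff (V b h) * (a * c * e) +
        constantCoeff (V c h) * (a * b * e) + constantCoeff (V e h) * (a * b * c)) := by
  obtain ⟨N, hN⟩ := bd h
  have x4 : (X 1 ^ 4 : A) = C 1 * X 1 ^ (3 + 1) := by simp
  have h0 : ∀ i, constantCoeff (d^[i] (X 1 ^ 4 : A)) = 0 := fun i => by
    have := VLi [] (X 1 ^ 4) i
    simp only [VL, List.foldr] at this
    rw [this]; simp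
  have h1 : ∀ i a, constantCoeff (V a (d^[i] (X 1 ^ 4 : A))) = 0 := fun i a => by
    have := VLi [a] (X 1 ^ 4) i
    simp only [VL, List.foldr] at this
    rw [this, x4, Vp]; simp
  have h2 : ∀ i a b, constantCoeff (V a (V b (d^[i] (X 1 ^ 4 : A)))) = 0 := fun i a b => by
    have := VLi [a, b] (X 1 ^ 4) i
    simp only [VL, List.foldr] at this
    rw [this, x4, Vp, Vp]; simp
  have h3 : ∀ i a b c, constantCoeff (V a (V b (V c (d^[i] (X 1 ^ 4 : A))))) = 0 :=
    fun i a b c => by
    have := VLi [a, b, c] (X 1 ^ 4) i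
    simp only [VL, List.foldr] at this
    rw [this, x4, Vp, Vp, Vp]; simp
  have h4 : ∀ i, constantCoeff (V a (V b (V c (V e (d^[i] (X 1 ^ 4 : A)))))) =
      (a + b + c + e) ^ i * (24 * (a * b * c * e)) := fun i => by
    have := VLi [a, b, c, e] (X 1 ^ 4) i
    simp only [VL, List.foldr] at this
    rw [this, x4, Vp, Vp, Vp, Vp]; simp; ring
  have hU : constantCoeff (V a (V b (V c (V e (U h))))) =
      constantCoeff (V (a + b + c + e) h) * (24 * (a * b * c * e)) := by
    simp only [expand U hN, map_sum, UX, Derivation.leibniz, smul_eq_mul, map_add, map_mul, h0, h1,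
      h2, h3, h4, zero_mul, mul_zero, add_zero, hV hN, sum_mul, mul_assoc]
  have hq : constantCoeff (V a (V b (V c (V e (h * (C 4 * X 1 ^ 3)))))) =
      24 * (constantCoeff (V a h) * (b * c * e) + constantCoeff (V b h) * (a * c * e) +
        constantCoeff (V c h) * (a * b * e) + constantCoeff (V e h) * (a * b * c)) := by
    generalize hw : (C 4 * X 1 ^ 3 : A) = w
    simp only [Derivation.leibniz, smul_eq_mul, map_add, map_mul]
    subst hw
    have v0 : ∀ a r : ℝ, V a (C r * X 1 ^ 0) = 0 := fun a r => by simp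
    simp only [Vp _ _ 2, Vp _ _ 1, Vp _ _ 0, v0]
    simp
    ring
  have := congrArg (fun p => constantCoeff (V a (V b (V c (V e p))))) hs
  simp only [star_eq, map_sub, map_add, hU, Vd, VS, Derivation.map_smul, ed, eS, constantCoeff_smul,
    hq, map_zero, smul_eq_mul] at this
  linear_combination (1 / 24) * this -
    (1 / 24 * constantCoeff (V a (V b (V c (V e h))))) * hc

lemma van {h : A} (hs : star h (X 3 + X 1 ^ 4) = 0) {k : ℕ} (hk : 6 ≤ k) :
    constantCoeff (pderiv k h) = 0 := by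
  obtain ⟨N, hN⟩ := bd h
  by_cases hkN : k < N
  swap
  · rw [pderiv_eq_zero_of_notMem_vars fun h => hkN (hN _ h), map_zero]
  let c : ℕ → ℝ := fun i => 280 * 9 ^ i + 504 * (-5) ^ i + 2520 * (-1) ^ i - 360 * 7 ^ i - 315 * 8 ^ i
  have hP : ∑ i ∈ range N, Polynomial.monomial (i + 4) (constantCoeff (pderiv i h) * c i) = 0 :=
    Polynomial.funext fun x => by
      have := sym hs (-5 * x) (-1 * x) (7 * x) (8 * x) (by ring)
      rw [show -5 * x + -1 * x + 7 * x + 8 * x = 9 * x by ring] at this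
      simp only [hV hN, sum_mul, mul_sum, ← sum_add_distrib] at this
      rw [← sub_eq_zero, ← sum_sub_distrib] at this
      rw [Polynomial.eval_finsetSum, Polynomial.eval_zero, ← this]
      exact sum_congr rfl fun i _ => by simp only [Polynomial.eval_monomial, c, mul_pow]; ring
  have := congrArg (Polynomial.coeff · (k + 4)) hP
  simp only [Polynomial.finsetSum_coeff, Polynomial.coeff_monomial, add_left_inj, sum_ite_eq',
    mem_range, hkN, if_true, Polynomial.coeff_zero] at this
  refine (mul_eq_zero.1 this).resolve_right (ne_of_gt ?_)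
  have g : (504 * 5 ^ k + 2520 + 360 * 7 ^ k + 315 * 8 ^ k : ℝ) < 280 * 9 ^ k := by
    clear this hkN
    induction k, hk using Nat.le_induction with
    | base => norm_num
    | succ k _ ih =>
      simp only [pow_succ]
      nlinarith [pow_pos (show (0 : ℝ) < 5 by norm_num) k, pow_pos (show (0 : ℝ) < 7 by norm_num) k,
        pow_pos (show (0 : ℝ) < 8 by norm_num) k]
  have a5 := neg_abs_le ((-5 : ℝ) ^ k)
  have a1 := neg_abs_le ((-1 : ℝ) ^ k)
  rw [abs_pow, abs_neg] at a5 a1
  norm_num at a5 a1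
  simp only [c]
  linarith

theorem result : ∃ (n m : ℕ) (f g : A), 1 < m ∧ m < n ∧
    (∀ i ∈ f.vars, i ≤ n) ∧ pderiv n f ≠ 0 ∧ (∀ i ∈ g.vars, i ≤ m) ∧ pderiv m g ≠ 0 ∧
    star f g = 0 ∧
    ∃ s : Finset A, ∀ h, star h g = 0 → h ∈ Submodule.span ℝ (s : Set A) := by
  have n4 : ∀ D : Derivation ℝ A A, D 4 = 0 := fun D => D.map_natCast 4
  refine ⟨4, 3, X 4 + 4 * X 1 ^ 3 * X 2, X 3 + X 1 ^ 4, by norm_num, by norm_num,
    fun i hi => le_of_not_gt fun h => nv ?_ hi, ?_, fun i hi => le_of_not_gt fun h => nv ?_ hi, ?_,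
    ?_, ?_⟩
  · simp [Derivation.leibniz_pow, n4, pderiv_X_of_ne (show 4 ≠ i by omega),
      pderiv_X_of_ne (show 1 ≠ i by omega), pderiv_X_of_ne (show 2 ≠ i by omega)]
  · simp [Derivation.leibniz_pow, n4, pderiv_X_of_ne]
  · simp [Derivation.leibniz_pow, pderiv_X_of_ne (show 3 ≠ i by omega),
      pderiv_X_of_ne (show 1 ≠ i by omega)]
  · simp [Derivation.leibniz_pow, pderiv_X_of_ne]
  · have e : (X 4 + 4 * X 1 ^ 3 * X 2 : A) = d (X 3 + X 1 ^ 4) := by
      simp [Derivation.leibniz_pow, mul_assoc]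
    have c1 : ∀ p, S (d p) = d (S p) + (0 : Derivation ℝ A A) p := fun p => comm fun i _ => by simp
    have c2 : ∀ p, U (d p) = d (U p) + (0 : Derivation ℝ A A) p := fun p => comm fun i _ => by
      simp [Function.iterate_succ_apply']
    have e2 : S (X 3 + X 1 ^ 4) + U (X 3 + X 1 ^ 4) - d (d (d (X 3 + X 1 ^ 4))) -
        d (X 3 + X 1 ^ 4) * (C 4 * X 1 ^ 3) = 0 := by
      rw [← e]
      simp only [map_add, SX, UX, dX, Derivation.leibniz_pow S, Derivation.leibniz_pow U,
        Function.iterate_succ_apply', Function.iterate_zero, id]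
      simp [Derivation.leibniz_pow, map_ofNat]
      ring
    have := congrArg d e2
    rw [star_eq, e, c1, c2]
    simpa only [map_sub, map_add d, map_zero, Derivation.zero_apply, add_zero] using this
  · let L : A →ₗ[ℝ] A := S.toLinearMap + U.toLinearMap - d.toLinearMap ∘ₗ d.toLinearMap ∘ₗ
      d.toLinearMap - d.toLinearMap ∘ₗ LinearMap.mulRight ℝ (C 4 * X 1 ^ 3)
    have hL : ∀ h, h ∈ LinearMap.ker L ↔ star h (X 3 + X 1 ^ 4) = 0 := fun h => by
      rw [star_eq]; rfl
    let φ : LinearMap.ker L →ₗ[ℝ] (Fin 6 → ℝ) := LinearMap.pi fun i =>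
      lcoeff ℝ 0 ∘ₗ (pderiv (i : ℕ)).toLinearMap ∘ₗ (LinearMap.ker L).subtype
    have : Module.Finite ℝ (LinearMap.ker L) := Module.Finite.of_injective φ
      ((injective_iff_map_eq_zero φ).2 fun x hx => Subtype.ext (inj ((hL _).1 x.2) fun i => by
        rcases lt_or_ge i 6 with h | h
        · exact congrFun hx ⟨i, h⟩
        · exact van ((hL _).1 x.2) h))
    obtain ⟨s, hs⟩ := Module.Finite.iff_fg.1 this
    exact ⟨s, fun h e => hs ▸ (hL h).2 e⟩

end Pool.Agent.Results.MP_c360fa_mp.FiniteH
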